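import Pool.Agent.Lib.MP_80d0cf_nt.Main

/-! Unconditional lower bound for the constants in the `2k`-th moments of zeta, `k` large:
in the normalisation `m_{2k}(T) ~ g_k a_k / (k^2)! (log T)^(k^2)` (conjecturally `g_3 = 42`,
`g_4 = 24024`) one has `g_k ≥ exp ((γ - ε) k^2)` for all large `k`. -/

namespace Pool.Agent.Results.MP_80d0cf_nt.LargeKLowerBound

open Filter

/-- The normalised moment `m_{2k}(T) = T⁻¹ ∫_0^T |ζ(1/2 + i t)|^(2k) dt`. -/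
noncomputable def moment (k : ℕ) (T : ℝ) : ℝ :=
  T⁻¹ * ∫ t in (0 : ℝ)..T, ‖riemannZeta (1 / 2 + (t : ℂ) * Complex.I)‖ ^ (2 * k)

/-- The Euler factor at `p` of the arithmetic constant `a_k`:
`(1 - 1/p)^(k^2) ∑_e d_k(p^e)^2 p^(-e)`, where `d_k(p^e) = binom(e + k - 1, e)`. -/
noncomputable def eulerFactor (k : ℕ) (p : Nat.Primes) : ℝ :=
  (1 - 1 / ((p : ℕ) : ℝ)) ^ (k ^ 2) *
    ∑' e : ℕ, (((e + k - 1).choose e : ℕ) : ℝ) ^ 2 / ((p : ℕ) : ℝ) ^ e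

theorem result (ε : ℝ) (hε : 0 < ε) : ∃ k₀ : ℕ, ∀ k : ℕ, k₀ ≤ k →
    ∃ a : ℝ, 0 < a ∧ HasProd (eulerFactor k) a ∧ ∃ T₀ : ℝ, ∀ T : ℝ, T₀ ≤ T →
      Real.exp ((Real.eulerMascheroniConstant - ε) * (k : ℝ) ^ 2) * a / ((k ^ 2).factorial : ℝ) *
        Real.log T ^ (k ^ 2) ≤ moment k T := by
  obtain ⟨j₀, hj⟩ := eventually_atTop.1 (Pool.Agent.Lib.MP_80d0cf_nt.main ε hε)
  refine ⟨j₀ + 2, fun k hk => ?_⟩
  obtain ⟨j, rfl⟩ : ∃ j, k = j + 2 := ⟨k - 2, by omega⟩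
  refine ⟨Pool.Agent.Lib.MP_80d0cf_nt.ak (j + 2), Real.exp_pos _,
    Pool.Agent.Lib.MP_80d0cf_nt.hasProd_ak (j + 1), ?_⟩
  obtain ⟨T₀, hT⟩ := eventually_atTop.1 (hj j (by omega))
  refine ⟨T₀, fun T h => ?_⟩
  have h1 := hT T h
  have e : ((1 / 2 : ℝ) : ℂ) = 1 / 2 := by push_cast; ring
  simp only [Pool.Agent.Lib.MP_80d0cf_nt.zl, e] at h1
  rw [moment]
  push_cast
  exact h1

end Pool.Agent.Results.MP_80d0cf_nt.LargeKLowerBound
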