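import Pool.Agent.Lib.MP_80d0cf_nt.Up.WAll
import Pool.Agent.Lib.MP_80d0cf_nt.Up.YAll
import Pool.Agent.Lib.MP_80d0cf_nt.UN.Interp

/-! A power saving over the bound `(A - 4) / 8` for all moments of order `4 < A ≤ 12`. -/

open Pool.Agent.Lib.MP_80d0cf_nt in
theorem Pool.Agent.Results.MP_80d0cf_nt.MomentBound.result :
    ∃ δ : ℝ, 0 < δ ∧ ∀ A : ℝ, 4 ≤ A → A ≤ 12 → ∀ ε : ℝ, 0 < ε → ∃ C : ℝ, ∀ T : ℝ, 1 ≤ T →
      T⁻¹ * ∫ t in (0 : ℝ)..T, ‖riemannZeta (1 / 2 + t * Complex.I)‖ ^ A ≤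
        C * T ^ (max (5 * (A - 4) / 42) ((3 * A - 13) / 23) - δ * max 0 (11 * A - 86) + ε) := by
  obtain ⟨d, C2, hd, h2⟩ := Up.twelfth
  refine ⟨d / 46, by positivity, fun A h4 h12 ε hε => ?_⟩
  rcases le_total A (86 / 11) with hA | hA
  · obtain ⟨C, h⟩ := Up.explicit3 h4 h12 hε
    refine ⟨C, fun T hT => ?_⟩
    have hT0 : 0 < T := by linarith
    rw [inv_mul_le_iff₀ hT0, max_eq_left (show 11 * A - 86 ≤ 0 by linarith), mul_zero, sub_zero]
    refine (h T hT).trans (le_of_eq ?_)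
    rw [show max ((22 + 5 * A) / 42) ((10 + 3 * A) / 23) + ε =
        1 + (max (5 * (A - 4) / 42) ((3 * A - 13) / 23) + ε) by
      rw [← add_assoc, ← max_add_add_left]; congr 2 <;> ring, Real.rpow_add hT0, Real.rpow_one]
    ring
  · obtain ⟨C1, h1⟩ := Up.explicit3 (A := 86 / 11) (by norm_num) (by norm_num) hε
    refine ⟨C1 + |C2|, fun T hT => ?_⟩
    have hT0 : 0 < T := by linarith
    rw [inv_mul_le_iff₀ hT0, max_eq_right (show 0 ≤ 11 * A - 86 by linarith),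
      max_eq_right (show 5 * (A - 4) / 42 ≤ (3 * A - 13) / 23 by linarith)]
    have hV : 0 < T ^ ((6 - 11 * d) / 46) := Real.rpow_pos_of_pos hT0 _
    refine (UN.interp UN.zeta_cont (fun _ => norm_nonneg _) hT0.le hV (by norm_num) hA h12).trans ?_
    have k1 := mul_le_mul_of_nonneg_left (h1 T hT) (Real.rpow_nonneg hV.le (A - 86 / 11))
    have k2 := mul_le_mul_of_nonneg_left ((h2 T hT).trans (mul_le_mul_of_nonneg_right
      (le_abs_self C2) (Real.rpow_nonneg hT0.le _))) (Real.rpow_nonneg hV.le (A - 12))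
    have e : ∀ x : ℝ, T * T ^ x = T ^ (1 + x) := fun x => by
      rw [Real.rpow_add hT0, Real.rpow_one]
    rw [show max ((22 + 5 * (86 / 11) : ℝ) / 42) ((10 + 3 * (86 / 11)) / 23) = 16 / 11 by norm_num,
      ← Real.rpow_mul hT0.le, mul_left_comm _ C1, ← Real.rpow_add hT0,
      Real.rpow_mul hT0.le] at k1
    rw [← Real.rpow_mul hT0.le, mul_left_comm _ |C2|, ← Real.rpow_add hT0,
      Real.rpow_mul hT0.le] at k2
    rw [mul_left_comm T, e, add_mul]
    refine add_le_add (k1.trans (le_of_eq ?_)) (k2.trans (mul_le_mul_of_nonneg_left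
      (Real.rpow_le_rpow_of_exponent_le hT ?_) (abs_nonneg _)))
    · congr 2; ring
    · linarith
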