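import Pool.Agent.Lib.MP_80d0cf_nt.Sg.All

/-! Asymptotic sixth and eighth moments of zeta on vertical lines slightly to the left of
`7 / 12` and `5 / 8`. -/

theorem Pool.Agent.Results.MP_80d0cf_nt.OffLineAsymptotic.result :
    ∃ δ : ℝ, 0 < δ ∧ ∀ k : ℕ, 3 ≤ k → k ≤ 4 → ∀ σ : ℝ, 3 / 4 - 1 / (2 * k) - δ < σ → σ < 1 →
      ∃ c : ℝ,
        HasSum (fun n : ℕ =>
          (((ArithmeticFunction.zeta ^ k) n : ℕ) : ℝ) ^ 2 / (n : ℝ) ^ (2 * σ)) c ∧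
        Filter.Tendsto
          (fun T : ℝ => T⁻¹ * ∫ t in (0 : ℝ)..T, ‖riemannZeta (σ + t * Complex.I)‖ ^ (2 * k))
          Filter.atTop (nhds c) := by
  obtain ⟨δ, hδ, h⟩ := Pool.Agent.Lib.MP_80d0cf_nt.Sg.main
  exact ⟨δ, hδ, fun k h3 h4 => h k (by omega)⟩
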