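import Pool.Agent.Lib.MP_80d0cf_nt.Six.Final

open Filter

namespace Pool.Agent.Results.MP_80d0cf_nt.SixthMomentLower

/-- Unconditional lower bound for the sixth moment of zeta: with `a` the Euler product of Q2,
`m_6(T) ≥ c * a / 9! * (log T) ^ 9` for all large `T`, for every `c < 35.053364903`. -/
theorem result : ∃ a : ℝ, 0 < a ∧
    HasProd (fun p : Nat.Primes => (1 - (p : ℝ)⁻¹) ^ 4 * (1 + 4 * (p : ℝ)⁻¹ + ((p : ℝ) ^ 2)⁻¹)) a ∧
    ∀ c : ℝ, c < 35.053364903 → ∀ᶠ T : ℝ in atTop,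
      c / (Nat.factorial 9) * a * Real.log T ^ 9 ≤
        T⁻¹ * ∫ t in (0 : ℝ)..T, ‖riemannZeta (1 / 2 + t * Complex.I)‖ ^ 6 := by
  refine ⟨_, Lib.MP_80d0cf_nt.Six.a3_pos, Lib.MP_80d0cf_nt.Six.multipliable_lf.hasProd, fun c hc => ?_⟩
  filter_upwards [Lib.MP_80d0cf_nt.Six.six_lower (le_max_right c 0) (max_lt hc (by norm_num)),
    eventually_ge_atTop 1] with T h hT
  have := Real.log_nonneg hT
  have := Lib.MP_80d0cf_nt.Six.a3_pos
  exact le_trans (by gcongr; exact le_max_left _ _) h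

end Pool.Agent.Results.MP_80d0cf_nt.SixthMomentLower
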